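import Pool.Agent.H22.AN.TB3

/-! Row ISO of `allh_modules` (MP_2697e3_an): isometries with prescribed normal vectors. -/

set_option autoImplicit false

namespace Pool.Agent.H66.AN

open MeasureTheory Metric Set Filter Topology
open Pool.Agent.H87.SN Pool.Agent.H87.SH Pool.Agent.H87.AX Pool.Agent.H22.AN
open scoped ContDiff RealInnerProductSpace ENNReal

noncomputable section

/-- An orthonormal basis which begins with two given vectors. -/
theorem exists_basis {d : ℕ} (ν₁ ν₂ : V d) (h : ON ν₁ ν₂) :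
    ∃ b : OrthonormalBasis (Fin (d + 2)) ℝ (V d), b 0 = ν₁ ∧ b 1 = ν₂ := by
  obtain ⟨h1, h2, h3⟩ := h
  have h01 : (0 : Fin (d + 2)) ≠ 1 := by simp
  let v : Fin (d + 2) → V d := fun i => if i = 0 then ν₁ else if i = 1 then ν₂ else 0
  have hv0 : v 0 = ν₁ := if_pos rfl
  have hv1 : v 1 = ν₂ := by
    show (if (1 : Fin (d + 2)) = 0 then ν₁ else if (1 : Fin (d + 2)) = 1 then ν₂ else 0) = ν₂
    rw [if_neg h01.symm, if_pos rfl]
  let s : Set (Fin (d + 2)) := {0, 1}
  have hon : Orthonormal ℝ (s.restrict v) := by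
    rw [orthonormal_iff_ite]
    rintro ⟨i, hi⟩ ⟨j, hj⟩
    show ⟪v i, v j⟫ = _
    rcases hi with rfl | hi
    · rcases hj with rfl | hj
      · rw [if_pos rfl, hv0, real_inner_self_eq_norm_sq, h1]
        norm_num
      · have hj' : j = 1 := hj
        subst hj'
        rw [if_neg (fun h => h01 (congrArg Subtype.val h)), hv0, hv1, h3]
    · have hi' : i = 1 := hi
      subst hi'
      rcases hj with rfl | hj
      · rw [if_neg (fun h => h01.symm (congrArg Subtype.val h)), hv0, hv1, real_inner_comm, h3]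
      · have hj' : j = 1 := hj
        subst hj'
        rw [if_pos rfl, hv1, real_inner_self_eq_norm_sq, h2]
        norm_num
  obtain ⟨b, hb⟩ := hon.exists_orthonormalBasis_extension_of_card_eq
    (by rw [finrank_euclideanSpace]) 
  exact ⟨b, (hb 0 (Or.inl rfl)).trans hv0, (hb 1 (Or.inr rfl)).trans hv1⟩

theorem pf_ISO : T_ISO := by
  intro d ν₁ ν₂ h
  obtain ⟨b, hb0, hb1⟩ := exists_basis ν₁ ν₂ h
  have hg : ∀ i : Fin (d + 2), b.repr.symm (bv i) = b i := by
    intro i
    exact b.repr_symm_single i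
  refine ⟨b.repr.symm, (hg 0).trans hb0, (hg 1).trans hb1, ?_⟩
  intro c r y
  have hin : ∀ i : Fin (d + 2), ⟪b.repr.symm y, b i⟫ = y i := by
    intro i
    rw [← hg i, LinearIsometryEquiv.inner_map_map, real_inner_comm]
    show ⟪EuclideanSpace.single i (1 : ℝ), y⟫ = y i
    rw [EuclideanSpace.inner_single_left]
    simp
  have hz : zm c r b.repr.symm y - c = r • b.repr.symm y := by
    unfold zm
    abel
  unfold dl
  rw [hz, ← hb0, ← hb1, inner_smul_left, inner_smul_left, hin, hin]
  unfold rho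
  rw [Real.sq_sqrt (by positivity)]
  simp only [conj_trivial]
  ring

end

end Pool.Agent.H66.AN
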